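import Pool.Agent.Helper63.GB2.Defs

/-!
# MP_02f2ca_gt, dimension two, module B4 : the flux identity with direct isometries
-/

open Set MeasureTheory Filter Topology

namespace GB

namespace FluxPlane

/-- The affine form of an isometry of the plane. -/
theorem isometry_form (g : ℂ ≃ᵢ ℂ) : ∃ L : ℂ ≃ₗᵢ[ℝ] ℂ, ∀ y, g y = L y + g 0 := by
  refine ⟨g.toRealAffineIsometryEquiv.linearIsometryEquiv, fun y => ?_⟩
  have h := g.toRealAffineIsometryEquiv.map_vadd (0 : ℂ) y
  simpa using h

theorem isometry_mp (g : ℂ ≃ᵢ ℂ) : MeasurePreserving g (volume : Measure ℂ) volume := by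
  obtain ⟨L, hL⟩ := isometry_form g
  have h1 : MeasurePreserving L (volume : Measure ℂ) volume := L.measurePreserving
  have h2 : MeasurePreserving (fun y : ℂ => y + g 0) volume volume :=
    measurePreserving_add_right volume (g 0)
  have h3 := h2.comp h1
  have : (g : ℂ → ℂ) = (fun y : ℂ => y + g 0) ∘ L := by
    funext y
    simp [hL y]
  rw [this]
  exact h3

theorem isometry_cases (g : ℂ ≃ᵢ ℂ) : ∃ ρ : ℂ, ‖ρ‖ = 1 ∧
    ((∀ y, g y = ρ * y + g 0) ∨ (∀ y, g y = ρ * (starRingEnd ℂ) y + g 0)) := by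
  obtain ⟨L, hL⟩ := isometry_form g
  obtain ⟨a, ha | ha⟩ := linear_isometry_complex L
  · refine ⟨a, by simp, Or.inl fun y => ?_⟩
    rw [hL y, ha, rotation_apply]
  · refine ⟨a, by simp, Or.inr fun y => ?_⟩
    rw [hL y, ha]
    simp [rotation_apply]

/-- The reflection `z ↦ conj z + I`. -/
noncomputable def sg : ℂ ≃ᵢ ℂ :=
  (Complex.conjLIE.toIsometryEquiv).trans (IsometryEquiv.addRight Complex.I)

theorem sg_apply (z : ℂ) : sg z = (starRingEnd ℂ) z + Complex.I := rfl

theorem sg_sg (z : ℂ) : sg (sg z) = z := by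
  simp [sg_apply]

/-- The pointwise identity for a join of bodies. -/
theorem join_indicator {k : ℕ} (P : Fin k → Set ℂ) (hP : ∀ i, IsOpen (P i))
    (hd : Pairwise fun i j => Disjoint (P i) (P j)) (y : ℂ) (hy : ∀ i, y ∉ frontier (P i)) :
    (interior (closure (⋃ i, P i))).indicator (fun _ => (1 : ℝ)) y =
      ∑ i, (P i).indicator (fun _ => (1 : ℝ)) y := by
  classical
  by_cases h : ∃ i, y ∈ P i
  · obtain ⟨i, hi⟩ := h
    have h1 : y ∈ interior (closure (⋃ i, P i)) := by
      have : (⋃ i, P i) ⊆ interior (closure (⋃ i, P i)) :=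
        interior_maximal subset_closure (isOpen_iUnion hP)
      exact this (mem_iUnion.2 ⟨i, hi⟩)
    rw [indicator_of_mem h1, Finset.sum_eq_single i]
    · rw [indicator_of_mem hi]
    · intro j _ hj
      have : y ∉ P j := fun hj' => (Set.disjoint_left.1 (hd hj)) hj' hi
      rw [indicator_of_notMem this]
    · intro h'
      exact absurd (Finset.mem_univ i) h'
  · push Not at h
    have h1 : y ∉ interior (closure (⋃ i, P i)) := by
      intro h'
      have h2 := interior_subset h'
      rw [closure_iUnion_of_finite] at h2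
      obtain ⟨i, hi⟩ := mem_iUnion.1 h2
      apply hy i
      rw [frontier, (hP i).interior_eq]
      exact ⟨hi, h i⟩
    rw [indicator_of_notMem h1]
    symm
    apply Finset.sum_eq_zero
    intro i _
    rw [indicator_of_notMem (h i)]

theorem image_indicator (g : ℂ ≃ᵢ ℂ) (P : Set ℂ) (y : ℂ) :
    (g '' P).indicator (fun _ => (1 : ℝ)) y = P.indicator (fun _ => (1 : ℝ)) (g.symm y) := by
  classical
  have h : y ∈ g '' P ↔ g.symm y ∈ P := by
    constructor
    · rintro ⟨x, hx, rfl⟩
      simpa using hx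
    · intro hx
      exact ⟨g.symm y, hx, by simp⟩
  by_cases hy : g.symm y ∈ P
  · rw [indicator_of_mem hy, indicator_of_mem (h.2 hy)]
  · rw [indicator_of_notMem hy, indicator_of_notMem (fun h' => hy (h.1 h'))]

end FluxPlane

open FluxPlane in
theorem flux_plane (A B : Set ℂ) (hA : IsGeomBody A) (hB : IsGeomBody B)
    (hAs : ∀ z : ℂ, (starRingEnd ℂ) z + Complex.I ∈ A ↔ z ∈ A)
    (hBs : ∀ z : ℂ, (starRingEnd ℂ) z + Complex.I ∈ B ↔ z ∈ B) (h : EquidecGeom A B) :
    ∃ (m : ℕ) (D : Fin m → Set ℂ) (ρ a : Fin m → ℂ), (∀ j, ‖ρ j‖ = 1) ∧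
      (∀ j, Bornology.IsBounded (D j) ∧ volume (frontier (D j)) = 0) ∧
      ∀ᵐ y : ℂ, 2 * (A.indicator (fun _ => (1 : ℝ)) y - B.indicator (fun _ => (1 : ℝ)) y) =
        ∑ j, ((D j).indicator (fun _ => (1 : ℝ)) y
          - (D j).indicator (fun _ => (1 : ℝ)) ((ρ j)⁻¹ * (y - a j))) := by
  classical
  obtain ⟨k, P, g, hP, hPd, hAP, hQd, hBP⟩ := h
  have hPo : ∀ i, IsOpen (P i) := fun i => (hP i).2.1 ▸ isOpen_interior
  -- the almost everywhere statement
  have hN : ∀ᵐ y : ℂ, ∀ i, y ∉ frontier (P i) ∧ (g i).symm y ∉ frontier (P i) := by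
    rw [ae_all_iff]
    intro i
    have h1 : ∀ᵐ y : ℂ, y ∉ frontier (P i) := measure_eq_zero_iff_ae_notMem.1 (hP i).2.2
    have h2 : ∀ᵐ y : ℂ, (g i).symm y ∉ frontier (P i) :=
      (isometry_mp (g i).symm).quasiMeasurePreserving.ae h1
    filter_upwards [h1, h2] with y hy1 hy2 using ⟨hy1, hy2⟩
  have key : ∀ y : ℂ, (∀ i, y ∉ frontier (P i) ∧ (g i).symm y ∉ frontier (P i)) →
      A.indicator (fun _ => (1 : ℝ)) y - B.indicator (fun _ => (1 : ℝ)) y =
        ∑ i, ((P i).indicator (fun _ => (1 : ℝ)) y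
          - (P i).indicator (fun _ => (1 : ℝ)) ((g i).symm y)) := by
    intro y hy
    rw [hAP, hBP, join_indicator P hPo hPd y (fun i => (hy i).1),
      join_indicator (fun i => g i '' P i) (fun i => (g i).toHomeomorph.isOpenMap _ (hPo i)) hQd y,
      Finset.sum_sub_distrib]
    · congr 1
      exact Finset.sum_congr rfl fun i _ => image_indicator (g i) (P i) y
    · intro i hi
      apply (hy i).2
      have h1 : frontier (g i '' P i) = g i '' frontier (P i) :=
        ((g i).toHomeomorph.image_frontier (P i)).symm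
      rw [h1] at hi
      obtain ⟨x, hx, rfl⟩ := hi
      simpa using hx
  -- symmetry of the two bodies
  have sA : ∀ y, A.indicator (fun _ => (1 : ℝ)) (sg y) = A.indicator (fun _ => (1 : ℝ)) y := by
    intro y
    rw [sg_apply]
    by_cases hy : y ∈ A
    · rw [indicator_of_mem hy, indicator_of_mem ((hAs y).2 hy)]
    · rw [indicator_of_notMem hy, indicator_of_notMem (fun h' => hy ((hAs y).1 h'))]
  have sB : ∀ y, B.indicator (fun _ => (1 : ℝ)) (sg y) = B.indicator (fun _ => (1 : ℝ)) y := by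
    intro y
    rw [sg_apply]
    by_cases hy : y ∈ B
    · rw [indicator_of_mem hy, indicator_of_mem ((hBs y).2 hy)]
    · rw [indicator_of_notMem hy, indicator_of_notMem (fun h' => hy ((hBs y).1 h'))]
  have hN2 : ∀ᵐ y : ℂ, ∀ i, sg y ∉ frontier (P i) ∧ (g i).symm (sg y) ∉ frontier (P i) :=
    (isometry_mp sg).quasiMeasurePreserving.ae hN
  -- the two direct isometries which belong to a piece
  have hdir : ∀ i, ∃ ρ₀ a₀ ρ₁ a₁ : ℂ, ‖ρ₀‖ = 1 ∧ ‖ρ₁‖ = 1 ∧ ∀ y,
      ((P i).indicator (fun _ => (1 : ℝ)) y - (P i).indicator (fun _ => (1 : ℝ)) ((g i).symm y)) +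
        ((P i).indicator (fun _ => (1 : ℝ)) (sg y)
          - (P i).indicator (fun _ => (1 : ℝ)) ((g i).symm (sg y))) =
      ((P i).indicator (fun _ => (1 : ℝ)) y
          - (P i).indicator (fun _ => (1 : ℝ)) (ρ₀⁻¹ * (y - a₀))) +
        ((sg ⁻¹' P i).indicator (fun _ => (1 : ℝ)) y
          - (sg ⁻¹' P i).indicator (fun _ => (1 : ℝ)) (ρ₁⁻¹ * (y - a₁))) := by
    intro i
    have hpre : ∀ z, (sg ⁻¹' P i).indicator (fun _ => (1 : ℝ)) z =
        (P i).indicator (fun _ => (1 : ℝ)) (sg z) := fun z => rfl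
    obtain ⟨ρ, hρ, hg | hg⟩ := isometry_cases (g i)
    · -- direct
      have hρ0 : ρ ≠ 0 := by
        intro h0; rw [h0, norm_zero] at hρ; exact zero_ne_one hρ
      have hρ0' : (starRingEnd ℂ) ρ ≠ 0 := by simpa using hρ0
      refine ⟨ρ, g i 0, (starRingEnd ℂ) ρ,
        (starRingEnd ℂ) (g i 0) + Complex.I - (starRingEnd ℂ) ρ * Complex.I, hρ, by simpa using hρ,
        fun y => ?_⟩
      have e1 : (g i).symm y = ρ⁻¹ * (y - g i 0) := by
        apply (g i).injective
        rw [(g i).apply_symm_apply, hg (ρ⁻¹ * (y - g i 0))]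
        field_simp
        ring
      have e2 : sg (((starRingEnd ℂ) ρ)⁻¹ * (y - ((starRingEnd ℂ) (g i 0) + Complex.I
          - (starRingEnd ℂ) ρ * Complex.I))) = (g i).symm (sg y) := by
        apply (g i).injective
        rw [(g i).apply_symm_apply, hg]
        simp only [sg_apply, map_mul, map_sub, map_add, map_inv₀, Complex.conj_conj, Complex.conj_I]
        field_simp
        ring
      rw [hpre, hpre, e2, e1]
    · -- opposite
      have hρ0 : ρ ≠ 0 := by
        intro h0; rw [h0, norm_zero] at hρ; exact zero_ne_one hρ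
      have hρ0' : (starRingEnd ℂ) ρ ≠ 0 := by simpa using hρ0
      refine ⟨(starRingEnd ℂ) ρ, (starRingEnd ℂ) (g i 0) + Complex.I, ρ,
        g i 0 - ρ * Complex.I, by simpa using hρ, hρ, fun y => ?_⟩
      have e1 : ((starRingEnd ℂ) ρ)⁻¹ * (y - ((starRingEnd ℂ) (g i 0) + Complex.I)) =
          (g i).symm (sg y) := by
        apply (g i).injective
        rw [(g i).apply_symm_apply, hg]
        simp only [sg_apply, map_mul, map_sub, map_add, map_inv₀, Complex.conj_conj, Complex.conj_I]
        field_simp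
        ring
      have e2 : sg (ρ⁻¹ * (y - (g i 0 - ρ * Complex.I))) = (g i).symm y := by
        apply (g i).injective
        rw [(g i).apply_symm_apply, hg]
        simp only [sg_apply, map_mul, map_sub, map_add, map_inv₀, Complex.conj_conj, Complex.conj_I,
          map_neg]
        field_simp
        ring
      rw [hpre, hpre, e2, e1]
      ring
  choose ρ₀ a₀ ρ₁ a₁ h₀ h₁ hsum using hdir
  refine ⟨k + k, Fin.append P (fun i => sg ⁻¹' P i), Fin.append ρ₀ ρ₁, Fin.append a₀ a₁,
    ?_, ?_, ?_⟩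
  · intro j
    refine Fin.addCases (fun i => ?_) (fun i => ?_) j
    · rw [Fin.append_left]; exact h₀ i
    · rw [Fin.append_right]; exact h₁ i
  · intro j
    refine Fin.addCases (fun i => ?_) (fun i => ?_) j
    · rw [Fin.append_left]; exact ⟨(hP i).1, (hP i).2.2⟩
    · rw [Fin.append_right]
      refine ⟨?_, ?_⟩
      · exact sg.isometry.antilipschitz.isBounded_preimage (hP i).1
      · have e : frontier (sg ⁻¹' P i) = sg ⁻¹' frontier (P i) :=
          (sg.toHomeomorph.preimage_frontier (P i)).symm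
        rw [e]
        exact (isometry_mp sg).quasiMeasurePreserving.preimage_null (hP i).2.2
  · filter_upwards [hN, hN2] with y hy1 hy2
    have k1 := key y hy1
    have k2 := key (sg y) hy2
    rw [sA, sB] at k2
    rw [Fin.sum_univ_add]
    simp only [Fin.append_left, Fin.append_right]
    rw [two_mul]
    nth_rw 1 [k1]
    rw [k2, ← Finset.sum_add_distrib, ← Finset.sum_add_distrib]
    exact Finset.sum_congr rfl fun i _ => hsum i y

end GB
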